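import Pool.Agent.SGE.Stmts

/-!
# SGE, module CHD: chords do not cross
-/

set_option autoImplicit false

open scoped BigOperators

noncomputable section

namespace Pool.Agent.SGE.H20

open Classical

variable {V : Type}

/-! ### lists -/

theorem tri_tail {R : V → V → V → Prop} {c : V} {l : List V} (h : Tri R (c :: l)) : Tri R l := by
  match l, h with
  | [], _ => trivial
  | [_], _ => trivial
  | _ :: _ :: _, h => exact h.2

theorem tri_mid {R : V → V → V → Prop} {A B : List V} {x z y : V}
    (h : Tri R (A ++ x :: z :: y :: B)) : R x z y := by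
  induction A with
  | nil => exact h.1
  | cons c A ih => exact ih (tri_tail h)

theorem ne_nil_last {l : List V} (h : l ≠ []) : ∃ l' x, l = l' ++ [x] := by
  rcases List.eq_nil_or_concat l with h' | ⟨l', x, h'⟩
  · exact absurd h' h
  · exact ⟨l', x, by rw [h', List.concat_eq_append]⟩

theorem fan_adj {E : V → V → Prop} {F : V → V → V → Prop} {x w y : V} (h : Fan E F x w y) :
    E w x ∧ E w y := by
  obtain ⟨l, h1, h2, -, -, h3, -⟩ := h
  exact ⟨(h3 x).2 (List.mem_of_mem_head? h1), (h3 y).2 (List.mem_of_mem_getLast? h2)⟩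

theorem tri_chain {E : V → V → Prop} {F : V → V → V → Prop} {e : V} {l : List V}
    (h : Tri (Fan E F) (e :: l)) : l.IsChain E := by
  induction l generalizing e with
  | nil => exact List.IsChain.nil
  | cons x l ih =>
    cases l with
    | nil => exact List.IsChain.singleton x
    | cons y l =>
      exact List.IsChain.cons_cons (fan_adj h.1).2 (ih h.2)

/-! ### the cycle -/

/-- the edge `x y` -/
def dl (x y i j : V) : ZMod 2 := (if i = x ∧ j = y then 1 else 0) + (if i = y ∧ j = x then 1 else 0)

theorem dl_symm (x y i j : V) : dl x y i j = dl x y j i := by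
  unfold dl
  rw [add_comm]
  congr 2
  · exact propext and_comm
  · exact propext and_comm

theorem dl_zero {x y i : V} (hx : i ≠ x) (hy : i ≠ y) (j : V) : dl x y i j = 0 := by
  unfold dl
  rw [if_neg (fun h => hx h.1), if_neg (fun h => hy h.1), add_zero]

theorem dl_ne {x y i j : V} (h : dl x y i j ≠ 0) : (i = x ∧ j = y) ∨ (i = y ∧ j = x) := by
  by_contra hc
  push Not at hc
  apply h
  unfold dl
  rw [if_neg (fun h => hc.1 h.1 h.2), if_neg (fun h => hc.2 h.1 h.2), add_zero]

theorem dl_sum [Fintype V] (x y i : V) :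
    ∑ j, dl x y i j = (if i = x then 1 else 0) + (if i = y then 1 else 0) := by
  unfold dl
  rw [Finset.sum_add_distrib]
  congr 1
  · by_cases h : i = x
    · simp [h]
    · simp [h]
  · by_cases h : i = y
    · simp [h]
    · simp [h]

/-- the sum of the edges of a path -/
def ZL : List V → V → V → ZMod 2
  | x :: y :: l, i, j => dl x y i j + ZL (y :: l) i j
  | _, _, _ => 0

theorem ZL_cons (x y : V) (l : List V) (i j : V) :
    ZL (x :: y :: l) i j = dl x y i j + ZL (y :: l) i j := rfl

theorem ZL_single (x i j : V) : ZL [x] i j = 0 := rfl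

theorem ZL_symm (l : List V) (i j : V) : ZL l i j = ZL l j i := by
  induction l with
  | nil => rfl
  | cons x l ih =>
    cases l with
    | nil => rfl
    | cons y l => rw [ZL_cons, ZL_cons, dl_symm, ih]

theorem ZL_zero {l : List V} {i : V} (h : i ∉ l) (j : V) : ZL l i j = 0 := by
  induction l with
  | nil => rfl
  | cons x l ih =>
    cases l with
    | nil => rfl
    | cons y l =>
      rw [ZL_cons, ih (fun h' => h (List.mem_cons_of_mem _ h')), add_zero]
      exact dl_zero (fun h' => h (by simp [h'])) (fun h' => h (by simp [h'])) j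

theorem ZL_ne {E : V → V → Prop} (hs : ∀ u v, E u v → E v u) {l : List V} (h : l.IsChain E)
    {i j : V} (hz : ZL l i j ≠ 0) : E i j := by
  induction l with
  | nil => exact absurd rfl hz
  | cons x l ih =>
    cases l with
    | nil => exact absurd rfl hz
    | cons y l =>
      rw [List.isChain_cons_cons] at h
      rw [ZL_cons] at hz
      by_cases h1 : ZL (y :: l) i j = 0
      · rw [h1, add_zero] at hz
        rcases dl_ne hz with ⟨rfl, rfl⟩ | ⟨rfl, rfl⟩
        · exact h.1
        · exact hs _ _ h.1
      · exact ih h.2 h1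

theorem ZL_sum [Fintype V] (x w : V) (l : List V) (i : V) :
    ∑ j, ZL (x :: (l ++ [w])) i j = (if i = x then 1 else 0) + (if i = w then 1 else 0) := by
  induction l generalizing x with
  | nil =>
    rw [List.nil_append]
    simp only [ZL_cons, ZL_single, add_zero]
    exact dl_sum x w i
  | cons y l ih =>
    rw [List.cons_append]
    simp only [ZL_cons]
    rw [Finset.sum_add_distrib, ih, dl_sum]
    have : ∀ a b c : ZMod 2, a + b + (b + c) = a + c := by decide
    exact this _ _ _

/-- the two edges at an inner vertex -/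
theorem ZL_mid {A B : List V} {x z y : V} (hA : z ∉ A) (hx : z ≠ x) (hy : z ≠ y) (hB : z ∉ B)
    (t : V) : ZL (A ++ x :: z :: y :: B) z t = (if t = x then 1 else 0) + (if t = y then 1 else 0) := by
  induction A with
  | nil =>
    rw [List.nil_append, ZL_cons, ZL_cons, ZL_zero (l := y :: B)]
    · unfold dl
      simp [hx, hy]
    · simp [hy, hB]
  | cons c A ih =>
    have h1 : z ≠ c := fun h => hA (by simp [h])
    have h2 : z ∉ A := fun h => hA (List.mem_cons_of_mem _ h)
    rw [← ih h2]
    cases A with
    | nil =>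
      rw [List.cons_append, List.nil_append, ZL_cons, dl_zero h1 hx, zero_add]
    | cons c' A =>
      rw [List.cons_append, List.cons_append, ZL_cons, dl_zero h1 (fun h => h2 (by simp [h])),
        zero_add]

/-! ### walking around a vertex -/

theorem eq_of_add (a b : ZMod 2) (h : a + b = 0) : a = b := by
  revert a b
  decide

theorem walk {F : V → V → V → Prop} {A Z : V → V → ZMod 2}
    (h1 : ∀ u v w, F u v w → A u v = A v w) (rot : ∀ u v w, F u v w → F v w u)
    (hZ : ∀ u v, Z u v = A u v + A v u) {z : V} {c : ZMod 2} {l : List V} {x : V}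
    (hc : (x :: l).IsChain (F z)) (hx : A z x = c) (hl : ∀ t ∈ l, Z z t = 0) :
    ∀ t ∈ x :: l, A z t = c := by
  induction l generalizing x with
  | nil =>
    intro t ht
    rw [List.mem_singleton] at ht
    rw [ht, hx]
  | cons y l ih =>
    rw [List.isChain_cons_cons] at hc
    have e1 := h1 _ _ _ hc.1
    have e2 := h1 _ _ _ (rot _ _ _ hc.1)
    have e3 := hl y List.mem_cons_self
    rw [hZ] at e3
    have e4 := eq_of_add _ _ e3
    have e5 : A z y = c := by rw [e4, ← e2, ← e1, hx]
    intro t ht
    rcases List.mem_cons.1 ht with rfl | ht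
    · exact hx
    · exact ih hc.2 e5 (fun t ht => hl t (List.mem_cons_of_mem _ ht)) t ht

/-! ### chords -/

theorem chd : ChdStmt := by
  intro V _ a b P M Q u w E F N hM huw z hz x hx hzx
  by_contra hxL
  have nd := N.nd
  have hbd := N.bd
  -- no faces on the right of the contour
  have out1 : ∀ (A B : List V) (p q : V), P ++ u :: (M ++ w :: Q) ++ [a] = A ++ p :: q :: B →
      ∀ t, ¬ F p q t := by
    intro A B p q h
    have h1 : b :: (P ++ u :: (M ++ w :: Q) ++ [a]) = (b :: A) ++ p :: q :: B := by
      rw [h]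
      rfl
    obtain ⟨A', e, he⟩ := ne_nil_last (l := b :: A) (by simp)
    rw [h1, he, List.append_assoc, List.singleton_append] at hbd
    obtain ⟨l, -, -, -, -, -, h2⟩ := tri_mid hbd
    exact h2
  have out2 : ∀ t, ¬ F b a t := by
    obtain ⟨D, e, hD⟩ := ne_nil_last (l := P ++ u :: (M ++ w :: Q)) (by simp)
    have he : e = b := by
      have := N.ls
      rw [hD, List.getLast?_concat] at this
      exact Option.some_inj.1 this
    refine out1 D [] b a ?_
    rw [hD, he]
    simp
  -- the decomposition at `z`
  obtain ⟨M1, M2, rfl⟩ := List.append_of_mem hz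
  obtain ⟨A1, zl, hA1⟩ := ne_nil_last (l := u :: M1) (by simp)
  obtain ⟨zr, B2, hB2⟩ : ∃ y B, M2 ++ [w] = y :: B := by
    cases M2 with
    | nil => exact ⟨w, [], rfl⟩
    | cons y M2 => exact ⟨y, M2 ++ [w], rfl⟩
  have hL : u :: (M1 ++ z :: M2 ++ [w]) = A1 ++ zl :: z :: zr :: B2 := by
    have : u :: (M1 ++ z :: M2 ++ [w]) = (u :: M1) ++ z :: (M2 ++ [w]) := by simp
    rw [this, hA1, hB2]
    simp
  have hC : P ++ u :: (M1 ++ z :: M2 ++ w :: Q) = P ++ A1 ++ zl :: z :: zr :: (B2 ++ Q) := by
    have : P ++ u :: (M1 ++ z :: M2 ++ w :: Q) = P ++ (u :: (M1 ++ z :: M2 ++ [w])) ++ Q := by simp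
    rw [this, hL]
    simp
  have ndC := nd
  rw [hC] at ndC
  have ndL : (A1 ++ zl :: z :: zr :: B2).Nodup := by
    rw [← hL]
    have h1 : P ++ u :: (M1 ++ z :: M2 ++ w :: Q) =
        P ++ ((u :: (M1 ++ z :: M2 ++ [w])) ++ Q) := by simp
    rw [h1] at nd
    exact (List.nodup_append.1 (List.nodup_append.1 nd).2.1).1
  have z1 : z ∉ A1 := by
    intro h
    exact (List.nodup_append.1 ndL).2.2 z h z (by simp) rfl
  have z2 : z ≠ zl := by
    rintro rfl
    have := (List.nodup_append.1 ndL).2.1
    simp at this
  have z3 : z ≠ zr := by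
    rintro rfl
    have := (List.nodup_append.1 ndL).2.1
    simp at this
  have z4 : z ∉ B2 := by
    intro h
    have := (List.nodup_append.1 ndL).2.1
    simp [h] at this
  have z5 : zl ≠ zr := by
    rintro rfl
    have := (List.nodup_append.1 ndL).2.1
    simp at this
  have zu : z ≠ u := by
    rintro rfl
    have h1 : (z :: (M1 ++ z :: M2 ++ [w])).Nodup := by rw [hL]; exact ndL
    simp at h1
  have zw : z ≠ w := by
    rintro rfl
    have h1 : (u :: (M1 ++ z :: M2 ++ [z])).Nodup := by rw [hL]; exact ndL
    rw [List.nodup_cons, List.nodup_append] at h1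
    exact h1.2.2.2 z (by simp) z (by simp) rfl
  -- the cycle
  obtain ⟨Z, hZ⟩ : ∃ Z : V → V → ZMod 2,
      Z = fun i j => ZL (u :: (M1 ++ z :: M2 ++ [w])) i j + dl u w i j := ⟨_, rfl⟩
  have Zs : ∀ i j, Z i j = Z j i := by
    intro i j
    rw [hZ]
    show ZL _ i j + dl u w i j = ZL _ j i + dl u w j i
    rw [ZL_symm, dl_symm]
  have Zx : ∀ i, i ∉ u :: (M1 ++ z :: M2 ++ [w]) → ∀ j, Z i j = 0 := by
    intro i hi j
    rw [hZ]
    show ZL _ i j + dl u w i j = 0
    rw [ZL_zero hi, dl_zero (fun h => hi (by simp [h])) (fun h => hi (by simp [h])), add_zero]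
  have Zz : ∀ t, Z z t = (if t = zl then 1 else 0) + (if t = zr then 1 else 0) := by
    intro t
    rw [hZ]
    show ZL _ z t + dl u w z t = _
    rw [dl_zero zu zw, add_zero, hL]
    exact ZL_mid z1 z2 z3 z4 t
  have hch : (u :: (M1 ++ z :: M2 ++ [w])).IsChain E := by
    have h1 := tri_chain hbd
    have h2 : P ++ u :: (M1 ++ z :: M2 ++ w :: Q) ++ [a] =
        P ++ ((u :: (M1 ++ z :: M2 ++ [w])) ++ (Q ++ [a])) := by simp
    rw [h2] at h1
    exact (List.IsChain.right_of_append h1).left_of_append
  obtain ⟨A, A1', A2', A3'⟩ := N.hom Z Zs (by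
    intro i j hij
    rw [hZ] at hij
    by_cases h1 : ZL (u :: (M1 ++ z :: M2 ++ [w])) i j = 0
    · have h2 : dl u w i j ≠ 0 := by
        intro h2
        apply hij
        show ZL _ i j + dl u w i j = 0
        rw [h1, h2, add_zero]
      rcases dl_ne h2 with ⟨rfl, rfl⟩ | ⟨rfl, rfl⟩
      · exact huw
      · exact N.sym _ _ huw
    · exact ZL_ne N.sym hch h1) (by
    intro i
    rw [hZ]
    show ∑ j, (ZL (u :: (M1 ++ z :: M2 ++ [w])) i j + dl u w i j) = 0
    rw [Finset.sum_add_distrib, ZL_sum, dl_sum]
    have : ∀ a b : ZMod 2, a + b + (a + b) = 0 := by decide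
    exact this _ _)
  -- around `z`
  have hz0 : A zl z = 0 := by
    refine A2' _ _ (out1 (P ++ A1) (zr :: (B2 ++ Q) ++ [a]) zl z ?_)
    rw [hC]
    simp
  have hz1 : A z zl = 1 := by
    have h1 := A3' z zl
    rw [hz0, add_zero, Zz, if_pos rfl, if_neg z5, add_zero] at h1
    exact h1.symm
  have hfz : Fan E F zl z zr := by
    have h1 := hbd
    rw [hC] at h1
    have h2 : b :: (P ++ A1 ++ zl :: z :: zr :: (B2 ++ Q) ++ [a]) =
        (b :: (P ++ A1)) ++ zl :: z :: zr :: (B2 ++ Q ++ [a]) := by simp
    rw [h2] at h1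
    exact tri_mid h1
  have hzx1 : A z x = 1 := by
    obtain ⟨l, l1, l2, l3, l4, l5, -⟩ := hfz
    obtain ⟨l', hl'⟩ : ∃ l', l = zl :: l' := by
      cases l with
      | nil => simp at l1
      | cons y l =>
        simp at l1
        exact ⟨l, by rw [l1]⟩
    subst hl'
    have hne : l' ≠ [] := by
      rintro rfl
      simp at l2
      exact z5 l2
    obtain ⟨l0, y, rfl⟩ := ne_nil_last hne
    have hy : y = zr := by
      rw [← List.cons_append, List.getLast?_concat] at l2
      exact Option.some_inj.1 l2
    subst hy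
    have hx1 := (l5 x).1 hzx
    have hxzr : x ≠ y := by
      rintro rfl
      apply hxL
      rw [hL]
      simp
    have hx2 : x ∈ zl :: l0 := by
      rcases List.mem_cons.1 hx1 with h | h
      · simp [h]
      · rcases List.mem_append.1 h with h | h
        · simp [h]
        · exact absurd (List.mem_singleton.1 h) hxzr
    refine walk A1' N.rot A3' (l := l0) (x := zl) ?_ hz1 ?_ x hx2
    · rw [← List.cons_append] at l3
      exact l3.left_of_append
    · intro t ht
      rw [Zz]
      rw [List.nodup_cons, List.nodup_append] at l4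
      rw [if_neg, if_neg, add_zero]
      · rintro rfl
        exact l4.2.2.2 t ht t (by simp) rfl
      · rintro rfl
        exact l4.1 (by simp [ht])
  -- around `x`
  have hxz0 : A x z = 0 := by
    obtain ⟨X1, X2, hX⟩ := List.append_of_mem hx
    obtain ⟨y, B, hy⟩ : ∃ y B, X2 ++ [a] = y :: B := by
      cases X2 with
      | nil => exact ⟨a, [], rfl⟩
      | cons y X2 => exact ⟨y, X2 ++ [a], rfl⟩
    obtain ⟨X1', e, he⟩ := ne_nil_last (l := b :: X1) (by simp)
    have hfx : Fan E F e x y := by
      have h1 := hbd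
      rw [hX] at h1
      have h2 : b :: (X1 ++ x :: X2 ++ [a]) = (b :: X1) ++ x :: (X2 ++ [a]) := by simp
      rw [h2, he, hy, List.append_assoc, List.singleton_append] at h1
      exact tri_mid h1
    have hex : A e x = 0 := by
      cases X1 with
      | nil =>
        have h1 : e = b := by
          have h3 : ([b] : List V) = X1' ++ [e] := he
          cases X1' with
          | nil => simpa using h3.symm
          | cons y X => simp at h3
        have h2 : x = a := by
          have := N.hd
          rw [hX] at this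
          simpa using this
        rw [h1, h2]
        exact A2' _ _ out2
      | cons c X1 =>
        obtain ⟨X0, e', he'⟩ := ne_nil_last (l := c :: X1) (by simp)
        have h1 : e' = e := by
          rw [he', ← List.cons_append] at he
          obtain ⟨-, h2⟩ := List.append_inj' he rfl
          simpa using h2
        refine A2' _ _ (out1 X0 (X2 ++ [a]) e x ?_)
        rw [hX, he', h1]
        simp
    have hxe : A x e = 0 := by
      have h1 := A3' x e
      rw [hex, add_zero, Zx x hxL] at h1
      exact h1.symm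
    obtain ⟨l, l1, -, l3, -, l5, -⟩ := hfx
    obtain ⟨l', rfl⟩ : ∃ l', l = e :: l' := by
      cases l with
      | nil => simp at l1
      | cons y l =>
        simp at l1
        exact ⟨l, by rw [l1]⟩
    exact walk A1' N.rot A3' l3 hxe (fun t _ => Zx x hxL t) z ((l5 z).1 (N.sym _ _ hzx))
  have h1 := A3' z x
  rw [Zs, Zx x hxL, hzx1, hxz0, add_zero] at h1
  exact zero_ne_one h1

end Pool.Agent.SGE.H20
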