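import Pool.Agent.SGE.Stmts

/-!
# SGE, module EXV: the rightmost contour vertex without chords
-/

set_option autoImplicit false

noncomputable section

namespace Pool.Agent.SGE.H20

variable {V : Type}

theorem xtri_tail {R : V → V → V → Prop} {c : V} {l : List V} (h : Tri R (c :: l)) : Tri R l := by
  match l, h with
  | [], _ => trivial
  | [_], _ => trivial
  | _ :: _ :: _, h => exact h.2

theorem xtri_mid {R : V → V → V → Prop} {A B : List V} {x z y : V}
    (h : Tri R (A ++ x :: z :: y :: B)) : R x z y := by
  induction A with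
  | nil => exact h.1
  | cons c A ih => exact ih (xtri_tail h)

theorem xne_nil_last {l : List V} (h : l ≠ []) : ∃ l' x, l = l' ++ [x] := by
  rcases List.eq_nil_or_concat l with h' | ⟨l', x, h'⟩
  · exact absurd h' h
  · exact ⟨l', x, by rw [h', List.concat_eq_append]⟩

/-- a vertex without chords below a chord -/
theorem below (chd : ChdStmt) [Fintype V] {a b : V} {C : List V} {E : V → V → Prop}
    {F : V → V → V → Prop} (N : NT a b C E F) (k : ℕ) :
    ∀ {P M Q : List V} {u w : V}, C = P ++ u :: (M ++ w :: Q) → M ≠ [] → E u w → M.length ≤ k →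
      ∃ (P' : List V) (p v q : V) (Q' : List V), C = P' ++ p :: v :: q :: Q' ∧
        (∀ x ∈ C, E v x → x = p ∨ x = q) ∧ P.length ≤ P'.length := by
  induction k with
  | zero =>
    intro P M Q u w _ hM _ hk
    exact absurd (List.length_eq_zero_iff.1 (Nat.le_zero.1 hk)) hM
  | succ k ih =>
    intro P M Q u w hC hM huw hk
    obtain ⟨m, M', rfl⟩ := List.exists_cons_of_ne_nil hM
    obtain ⟨n, rest, hn⟩ : ∃ n rest, M' ++ [w] = n :: rest := by
      cases M' with
      | nil => exact ⟨w, [], rfl⟩
      | cons n M' => exact ⟨n, M' ++ [w], rfl⟩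
    have hC2 : C = P ++ u :: m :: n :: (rest ++ Q) := by
      have h1 : P ++ u :: (m :: M' ++ w :: Q) = P ++ u :: m :: ((M' ++ [w]) ++ Q) := by simp
      rw [hC, h1, hn]
      simp
    by_cases hch : ∀ x ∈ rest, ¬ E m x
    · refine ⟨P, u, m, n, rest ++ Q, hC2, ?_, le_rfl⟩
      intro x hx hmx
      have N' := N
      rw [hC] at N' hx
      have h1 := chd N' (by simp) huw m (by simp) x hx hmx
      have h2 : u :: (m :: M' ++ [w]) = u :: m :: n :: rest := by
        rw [List.cons_append, hn]
      rw [h2] at h1
      rcases List.mem_cons.1 h1 with h | h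
      · exact Or.inl h
      · rcases List.mem_cons.1 h with h | h
        · rw [h] at hmx
          exact absurd hmx (N.irr m)
        · rcases List.mem_cons.1 h with h | h
          · exact Or.inr h
          · exact absurd hmx (hch x h)
    · push Not at hch
      obtain ⟨t, ht, hmt⟩ := hch
      obtain ⟨R1, R2, rfl⟩ := List.append_of_mem ht
      have hlen : (n :: R1).length ≤ k := by
        have h1 := congrArg List.length hn
        simp at h1 hk ⊢
        omega
      obtain ⟨P', p, v, q, Q', h1, h2, h3⟩ := ih (P := P ++ [u]) (M := n :: R1) (Q := R2 ++ Q)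
        (u := m) (w := t) (by rw [hC2]; simp) (by simp) hmt hlen
      refine ⟨P', p, v, q, Q', h1, h2, ?_⟩
      rw [List.length_append] at h3
      omega

theorem exv (chd : ChdStmt) : ExvStmt := by
  intro V _ a b C E F N hC
  -- the chord `a b`
  obtain ⟨M, hM, hCM⟩ : ∃ M : List V, M ≠ [] ∧ C = a :: (M ++ [b]) := by
    have h1 := N.hd
    have h2 := N.ls
    cases C with
    | nil => simp at h1
    | cons c C =>
      have hc : c = a := by simpa using h1
      subst hc
      have h3 : C ≠ [] := by
        rintro rfl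
        simp at h2
        exact N.ab h2
      obtain ⟨M, e, rfl⟩ := xne_nil_last h3
      have he : e = b := by
        rw [← List.cons_append, List.getLast?_concat] at h2
        exact Option.some_inj.1 h2
      subst he
      refine ⟨M, ?_, rfl⟩
      rintro rfl
      exact hC rfl
  have hab : E a b := by
    have h1 := N.bd
    obtain ⟨A', e, he⟩ := xne_nil_last (l := b :: a :: M) (by simp)
    have h2 : b :: (C ++ [a]) = (b :: a :: M) ++ b :: a :: [] := by
      rw [hCM]
      simp
    rw [h2, he, List.append_assoc, List.singleton_append] at h1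
    obtain ⟨l, -, h4, -, -, h5, -⟩ := xtri_mid h1
    exact N.sym _ _ ((h5 a).2 (List.mem_of_mem_getLast? h4))
  -- the rightmost vertex without chords
  have hex : ∃ k : ℕ, ∃ (P : List V) (p v q : V) (Q : List V), C = P ++ p :: v :: q :: Q ∧
      (∀ x ∈ C, E v x → x = p ∨ x = q) ∧ Q.length = k := by
    obtain ⟨P', p, v, q, Q', h1, h2, -⟩ := below chd N M.length (P := []) (M := M) (Q := [])
      (u := a) (w := b) (by rw [hCM]; simp) hM hab le_rfl
    exact ⟨Q'.length, P', p, v, q, Q', h1, h2, rfl⟩
  classical
  obtain ⟨P, p, v, q, Q, h1, h2, h3⟩ := Nat.find_spec hex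
  have hmin := fun m (hm : m < Nat.find hex) => Nat.find_min hex hm
  refine ⟨P, p, v, q, Q, h1, h2, ?_⟩
  rcases Q with _ | ⟨r, Q⟩
  · left
    have := N.ls
    rw [h1] at this
    have h4 : P ++ [p, v, q] = (P ++ [p, v]) ++ [q] := by simp
    rw [h4, List.getLast?_concat] at this
    exact Option.some_inj.1 this
  · right
    have h5 : ∃ z ∈ C, E q z ∧ z ≠ v ∧ z ≠ r := by
      by_contra hc
      push Not at hc
      refine hmin Q.length (by rw [← h3]; simp) ⟨P ++ [p], v, q, r, Q, ?_, ?_, rfl⟩
      · rw [h1]
        simp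
      · intro x hx hqx
        by_cases hxv : x = v
        · exact Or.inl hxv
        · exact Or.inr (hc x hx hqx hxv)
    obtain ⟨z, hz, hqz, hzv, hzr⟩ := h5
    rw [h1] at hz
    have hz' : z ∈ P ++ [p] ∨ z = v ∨ z = q ∨ z = r ∨ z ∈ Q := by
      simp only [List.mem_append, List.mem_cons] at hz
      simp only [List.mem_append, List.mem_singleton]
      tauto
    rcases hz' with h | h | h | h | h
    · exact ⟨z, h, hqz⟩
    · exact absurd h hzv
    · rw [h] at hqz
      exact absurd hqz (N.irr q)
    · exact absurd h hzr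
    · exfalso
      obtain ⟨R1, R2, rfl⟩ := List.append_of_mem h
      obtain ⟨P', p', v', q', Q', g1, g2, g3⟩ := below chd N (r :: R1).length
        (P := P ++ [p, v]) (M := r :: R1) (Q := R2) (u := q) (w := z) (by rw [h1]; simp)
        (by simp) hqz le_rfl
      refine hmin Q'.length ?_ ⟨P', p', v', q', Q', g1, g2, rfl⟩
      have h6 := congrArg List.length h1
      rw [g1] at h6
      rw [← h3]
      simp at h6 g3 ⊢
      omega

end Pool.Agent.SGE.H20
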