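import Pool.Agent.SGE.Stmts

/-!
# SGE, module INT: intervals
-/

set_option autoImplicit false

noncomputable section

namespace Pool.Agent.SGE.H20

theorem gapM (T : Finset ℝ) (B : ℝ) : ∃ M < B, ∀ t ∈ T, t < B → t ≤ M := by
  by_cases h : (T.filter (· < B)).Nonempty
  · refine ⟨(T.filter (· < B)).max' h, ?_, ?_⟩
    · exact (Finset.mem_filter.1 (Finset.max'_mem _ h)).2
    · intro t ht htB
      exact Finset.le_max' _ _ (Finset.mem_filter.2 ⟨ht, htB⟩)
  · refine ⟨B - 1, by linarith, ?_⟩
    intro t ht htB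
    exact absurd ⟨t, Finset.mem_filter.2 ⟨ht, htB⟩⟩ h

/-- present vertices -/
def Pr {V : Type} (a b : V) (S : List (V × List V)) (u : V) : Prop :=
  u = a ∨ u = b ∨ ∃ z ∈ S, z.1 = u

structure Inv {V : Type} (a b : V) (C : List V) (S : List (V × List V)) (α β : V → ℝ) : Prop where
  ia : ∀ u w, Pr a b S u → Pr a b S w → u ≠ w → α u ≠ α w
  ib : ∀ u w, Pr a b S u → Pr a b S w → u ≠ w → β u ≠ β w
  iab : ∀ u w, Pr a b S u → Pr a b S w → α u ≠ β w
  lt : ∀ u, Pr a b S u → α u < β u
  inc : C.Pairwise (fun u w => β u < β w)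
  i3 : ∀ u z, Pr a b S u → Pr a b S z → α u < β z → β z < β u → IsR S u
  od : Ord a b S β α

theorem base {V : Type} {a b : V} (h : a ≠ b) : ∃ α β : V → ℝ, Inv a b [a, b] [] α β := by
  classical
  have hpr : ∀ u, Pr a b [] u → u = a ∨ u = b := by
    rintro u (h | h | ⟨z, hz, -⟩)
    · exact Or.inl h
    · exact Or.inr h
    · simp at hz
  obtain ⟨α, hα⟩ : ∃ α : V → ℝ, α = fun u => if u = a then 0 else 2 := ⟨_, rfl⟩
  obtain ⟨β, hβ⟩ : ∃ β : V → ℝ, β = fun u => if u = a then 1 else 3 := ⟨_, rfl⟩
  have a1 : α a = 0 := by rw [hα]; simp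
  have a2 : α b = 2 := by rw [hα]; simp [h.symm]
  have b1 : β a = 1 := by rw [hβ]; simp
  have b2 : β b = 3 := by rw [hβ]; simp [h.symm]
  refine ⟨α, β, ?_, ?_, ?_, ?_, ?_, ?_, ?_⟩
  · intro u w hu hw huw
    rcases hpr u hu with rfl | rfl <;> rcases hpr w hw with rfl | rfl
    · exact absurd rfl huw
    · rw [a1, a2]; norm_num
    · rw [a1, a2]; norm_num
    · exact absurd rfl huw
  · intro u w hu hw huw
    rcases hpr u hu with rfl | rfl <;> rcases hpr w hw with rfl | rfl
    · exact absurd rfl huw
    · rw [b1, b2]; norm_num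
    · rw [b1, b2]; norm_num
    · exact absurd rfl huw
  · intro u w hu hw
    rcases hpr u hu with rfl | rfl <;> rcases hpr w hw with rfl | rfl
    · rw [a1, b1]; norm_num
    · rw [a1, b2]; norm_num
    · rw [a2, b1]; norm_num
    · rw [a2, b2]; norm_num
  · intro u hu
    rcases hpr u hu with rfl | rfl
    · rw [a1, b1]; norm_num
    · rw [a2, b2]; norm_num
  · simp [b1, b2]
  · intro u w hu hw h1 h2
    exfalso
    rcases hpr u hu with rfl | rfl <;> rcases hpr w hw with rfl | rfl
    · exact lt_irrefl _ h2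
    · rw [b1, b2] at h2; norm_num at h2
    · rw [a2, b1] at h1; norm_num at h1
    · exact lt_irrefl _ h2
  · refine ⟨?_, ?_, ?_, ?_⟩
    · rw [b1, b2]; norm_num
    · intro v l u hv; simp at hv
    · intro v l u hv; simp at hv
    · intro v l u hv; simp at hv

theorem step (cb : CbStmt) {V : Type} {a b : V} {P Q mid : List V} {p q v : V}
    {S : List (V × List V)} (h : Can a b (P ++ p :: (mid ++ q :: Q)) S) (ha : v ≠ a) (hb : v ≠ b)
    (hv : ∀ x ∈ S, x.1 ≠ v) {α β : V → ℝ} (I : Inv a b (P ++ p :: (mid ++ q :: Q)) S α β) :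
    ∃ α' β' : V → ℝ, Inv a b (P ++ p :: v :: q :: Q) ((v, p :: (mid ++ [q])) :: S) α' β' := by
  classical
  obtain ⟨cab, cnd, -, cpr, -, cS⟩ := cb h
  have hprC : ∀ u ∈ P ++ p :: (mid ++ q :: Q), Pr a b S u := cpr
  have hvn : ¬ Pr a b S v := by
    rintro (h | h | ⟨z, hz, h⟩)
    · exact ha h
    · exact hb h
    · exact hv z hz h
  have hne : ∀ u, Pr a b S u → u ≠ v := fun u hu h => hvn (h ▸ hu)
  have hpp : Pr a b S p := hprC p (by simp)
  have hpq : Pr a b S q := hprC q (by simp)
  -- the gap
  obtain ⟨M, hM, hgap⟩ := gapM (((a :: b :: S.map Prod.fst).map α ++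
    (a :: b :: S.map Prod.fst).map β).toFinset) (β q)
  have hmem : ∀ u, Pr a b S u → u ∈ a :: b :: S.map Prod.fst := by
    rintro u (h | h | ⟨z, hz, h⟩)
    · rw [h]; simp
    · rw [h]; simp
    · rw [← h]
      exact List.mem_cons_of_mem _ (List.mem_cons_of_mem _ (List.mem_map_of_mem hz))
  have gα : ∀ u, Pr a b S u → α u < β q → α u ≤ M := by
    intro u hu h
    refine hgap _ ?_ h
    rw [List.mem_toFinset, List.mem_append]
    exact Or.inl (List.mem_map_of_mem (hmem u hu))
  have gβ : ∀ u, Pr a b S u → β u < β q → β u ≤ M := by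
    intro u hu h
    refine hgap _ ?_ h
    rw [List.mem_toFinset, List.mem_append]
    exact Or.inr (List.mem_map_of_mem (hmem u hu))
  obtain ⟨a0, ha0⟩ : ∃ a0, a0 = (2 * M + β q) / 3 := ⟨_, rfl⟩
  obtain ⟨b0, hb0⟩ : ∃ b0, b0 = (M + 2 * β q) / 3 := ⟨_, rfl⟩
  have k1 : M < a0 := by rw [ha0]; linarith
  have k2 : a0 < b0 := by rw [ha0, hb0]; linarith
  have k3 : b0 < β q := by rw [hb0]; linarith
  obtain ⟨α', hα'⟩ : ∃ α', α' = Function.update α v a0 := ⟨_, rfl⟩
  obtain ⟨β', hβ'⟩ : ∃ β', β' = Function.update β v b0 := ⟨_, rfl⟩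
  have av : α' v = a0 := by rw [hα', Function.update_self]
  have bv : β' v = b0 := by rw [hβ', Function.update_self]
  have au : ∀ u, u ≠ v → α' u = α u := by
    intro u hu
    rw [hα', Function.update_of_ne hu]
  have bu : ∀ u, u ≠ v → β' u = β u := by
    intro u hu
    rw [hβ', Function.update_of_ne hu]
  have hprn : ∀ u, Pr a b ((v, p :: (mid ++ [q])) :: S) u → u = v ∨ (u ≠ v ∧ Pr a b S u) := by
    rintro u (h | h | ⟨z, hz, h⟩)
    · exact Or.inr ⟨by rw [h]; exact ha.symm, Or.inl h⟩
    · exact Or.inr ⟨by rw [h]; exact hb.symm, Or.inr (Or.inl h)⟩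
    · rcases List.mem_cons.1 hz with rfl | hz
      · exact Or.inl h.symm
      · have : Pr a b S u := Or.inr (Or.inr ⟨z, hz, h⟩)
        exact Or.inr ⟨hne u this, this⟩
  have hR : ∀ u, IsR S u → IsR ((v, p :: (mid ++ [q])) :: S) u := by
    rintro u ⟨x, hx, h⟩
    exact ⟨x, List.mem_cons_of_mem _ hx, h⟩
  have hRq : IsR ((v, p :: (mid ++ [q])) :: S) q := by
    refine ⟨(v, p :: (mid ++ [q])), List.mem_cons_self, ?_⟩
    show (p :: (mid ++ [q])).getLast? = some q
    rw [← List.cons_append, List.getLast?_concat]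
  have inc1 := I.inc
  rw [List.pairwise_append, List.pairwise_cons, List.pairwise_append, List.pairwise_cons] at inc1
  obtain ⟨p1, ⟨p2, p3, ⟨p4, p5⟩, p6⟩, p7⟩ := inc1
  have lq : ∀ u ∈ p :: (mid ++ [q]), β u ≤ β q := by
    intro u hu
    rcases List.mem_cons.1 hu with rfl | hu
    · exact (p2 q (by simp)).le
    · rcases List.mem_append.1 hu with hu | hu
      · exact (p6 u hu q (by simp)).le
      · rw [List.mem_singleton.1 hu]
  have lprS : ∀ u ∈ p :: (mid ++ [q]), Pr a b S u := by
    intro u hu
    refine hprC u ?_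
    rcases List.mem_cons.1 hu with rfl | hu
    · simp
    · rcases List.mem_append.1 hu with hu | hu
      · simp [hu]
      · rw [List.mem_singleton.1 hu]
        simp
  refine ⟨α', β', ?_, ?_, ?_, ?_, ?_, ?_, ?_⟩
  · intro u w hu hw huw
    rcases hprn u hu with rfl | ⟨hu1, hu2⟩ <;> rcases hprn w hw with rfl | ⟨hw1, hw2⟩
    · exact absurd rfl huw
    · rw [av, au w hw1]
      intro h
      have := gα w hw2 (by linarith)
      linarith
    · rw [av, au u hu1]
      intro h
      have := gα u hu2 (by linarith)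
      linarith
    · rw [au u hu1, au w hw1]
      exact I.ia u w hu2 hw2 huw
  · intro u w hu hw huw
    rcases hprn u hu with rfl | ⟨hu1, hu2⟩ <;> rcases hprn w hw with rfl | ⟨hw1, hw2⟩
    · exact absurd rfl huw
    · rw [bv, bu w hw1]
      intro h
      have := gβ w hw2 (by linarith)
      linarith
    · rw [bv, bu u hu1]
      intro h
      have := gβ u hu2 (by linarith)
      linarith
    · rw [bu u hu1, bu w hw1]
      exact I.ib u w hu2 hw2 huw
  · intro u w hu hw
    rcases hprn u hu with rfl | ⟨hu1, hu2⟩ <;> rcases hprn w hw with rfl | ⟨hw1, hw2⟩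
    · rw [av, bv]
      exact k2.ne
    · rw [av, bu w hw1]
      intro h
      have := gβ w hw2 (by linarith)
      linarith
    · rw [bv, au u hu1]
      intro h
      have := gα u hu2 (by linarith)
      linarith
    · rw [au u hu1, bu w hw1]
      exact I.iab u w hu2 hw2
  · intro u hu
    rcases hprn u hu with rfl | ⟨hu1, hu2⟩
    · rw [av, bv]
      exact k2
    · rw [au u hu1, bu u hu1]
      exact I.lt u hu2
  · rw [List.pairwise_append, List.pairwise_cons, List.pairwise_cons, List.pairwise_cons]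
    have nP : ∀ u ∈ P, u ≠ v := fun u hu => hne u (hprC u (by simp [hu]))
    have np : p ≠ v := hne p hpp
    have nq : q ≠ v := hne q hpq
    have nQ : ∀ u ∈ Q, u ≠ v := fun u hu => hne u (hprC u (by simp [hu]))
    refine ⟨?_, ⟨?_, ?_, ?_, ?_⟩, ?_⟩
    · refine p1.imp_of_mem ?_
      intro u w hu hw h
      rw [bu u (nP u hu), bu w (nP w hw)]
      exact h
    · intro w hw
      rw [bu p np]
      rcases List.mem_cons.1 hw with rfl | hw
      · rw [bv]
        have := gβ p hpp (p2 q (by simp))
        linarith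
      · rcases List.mem_cons.1 hw with rfl | hw
        · rw [bu w nq]
          exact p2 w (by simp)
        · rw [bu w (nQ w hw)]
          exact p2 w (by simp [hw])
    · intro w hw
      rw [bv]
      rcases List.mem_cons.1 hw with rfl | hw
      · rw [bu w nq]
        exact k3
      · rw [bu w (nQ w hw)]
        exact k3.trans (p4 w hw)
    · intro w hw
      rw [bu q nq, bu w (nQ w hw)]
      exact p4 w hw
    · refine p5.imp_of_mem ?_
      intro u w hu hw h
      rw [bu u (nQ u hu), bu w (nQ w hw)]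
      exact h
    · intro u hu w hw
      rw [bu u (nP u hu)]
      have huq : β u < β q := p7 u hu q (by simp)
      rcases List.mem_cons.1 hw with rfl | hw
      · rw [bu w np]
        exact p7 u hu w (by simp)
      · rcases List.mem_cons.1 hw with rfl | hw
        · rw [bv]
          have := gβ u (hprC u (by simp [hu])) huq
          linarith
        · rcases List.mem_cons.1 hw with rfl | hw
          · rw [bu w nq]
            exact huq
          · rw [bu w (nQ w hw)]
            exact p7 u hu w (by simp [hw])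
  · intro u z hu hz h1 h2
    rcases hprn u hu with rfl | ⟨hu1, hu2⟩ <;> rcases hprn z hz with rfl | ⟨hz1, hz2⟩
    · exact absurd h2 (lt_irrefl _)
    · exfalso
      rw [av, bu z hz1] at h1
      rw [bv, bu z hz1] at h2
      have := gβ z hz2 (by linarith)
      linarith
    · rw [au u hu1, bv] at h1
      rw [bv, bu u hu1] at h2
      by_cases huq : u = q
      · rw [huq]
        exact hRq
      · refine hR u (I.i3 u q hu2 hpq (by linarith) ?_)
        rcases lt_trichotomy (β u) (β q) with h | h | h
        · exfalso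
          have := gβ u hu2 h
          linarith
        · exact absurd h (I.ib u q hu2 hpq huq)
        · exact h
    · rw [au u hu1, bu z hz1] at h1
      rw [bu u hu1, bu z hz1] at h2
      exact hR u (I.i3 u z hu2 hz2 h1 h2)
  · have hold : ∀ w l, (w, l) ∈ S → w ≠ v ∧ ∀ u ∈ l, u ≠ v := by
      intro w l hw
      refine ⟨hv _ hw, fun u hu => hne u ((cS _ hw).2.2.2.2.2 u hu)⟩
    refine ⟨?_, ?_, ?_, ?_⟩
    · rw [bu a ha.symm, bu b hb.symm]
      exact I.od.ab
    · intro w l u hw hu
      rcases List.mem_cons.1 hw with hw | hw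
      · obtain ⟨rfl, rfl⟩ := Prod.mk.inj hw
        have : p = u := by simpa using hu
        subst this
        rw [bv, bu p (hne p hpp)]
        have := gβ p hpp (p2 q (by simp))
        linarith
      · obtain ⟨h1, h2⟩ := hold w l hw
        rw [bu w h1, bu u (h2 u (List.mem_of_mem_head? hu))]
        exact I.od.xl w l u hw hu
    · intro w l u hw hu
      rcases List.mem_cons.1 hw with hw | hw
      · obtain ⟨rfl, rfl⟩ := Prod.mk.inj hw
        rw [← List.cons_append, List.getLast?_concat] at hu
        have : q = u := by simpa using hu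
        subst this
        rw [bv, bu q (hne q hpq)]
        exact k3
      · obtain ⟨h1, h2⟩ := hold w l hw
        rw [bu w h1, bu u (h2 u (List.mem_of_mem_getLast? hu))]
        exact I.od.xr w l u hw hu
    · intro w l u hw hu
      rcases List.mem_cons.1 hw with hw | hw
      · obtain ⟨rfl, rfl⟩ := Prod.mk.inj hw
        have hup := lprS u hu
        rw [av, au u (hne u hup)]
        have h1 := I.lt u hup
        have h2 := lq u hu
        have := gα u hup (by linarith)
        linarith
      · obtain ⟨h1, h2⟩ := hold w l hw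
        rw [au w h1, au u (h2 u hu)]
        exact I.od.up w l u hw hu

theorem inv (cb : CbStmt) {V : Type} {a b : V} {C : List V} {S : List (V × List V)}
    (h : Can a b C S) : ∃ α β : V → ℝ, Inv a b C S α β := by
  induction h with
  | base h => exact base h
  | step h ha hb hv ih =>
    obtain ⟨α, β, I⟩ := ih
    exact step cb h ha hb hv I

theorem int (cb : CbStmt) : IntStmt := by
  intro V a b C S h
  obtain ⟨α, β, I⟩ := inv cb h
  refine ⟨β, α, I.od, ?_, ?_⟩
  · intro u w hu hw huw
    exact ⟨I.ib u w hu hw huw, I.ia u w hu hw huw⟩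
  · have key : ∀ u w, (∃ z ∈ S, z.1 = u) → (∃ z ∈ S, z.1 = w) → ¬ IsR S w → β u < β w →
        α u < α w := by
      intro u w hu hw hRw hlt
      have pu : Pr a b S u := Or.inr (Or.inr hu)
      have pw : Pr a b S w := Or.inr (Or.inr hw)
      have h1 : β u < α w := by
        by_contra hc
        push Not at hc
        exact hRw (I.i3 w u pw pu (lt_of_le_of_ne hc (I.iab w u pw pu)) hlt)
      exact (I.lt u pu).trans h1
    intro u w hu hw hRu hRw
    constructor
    · exact key u w hu hw hRw
    · intro hlt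
      have pu : Pr a b S u := Or.inr (Or.inr hu)
      have pw : Pr a b S w := Or.inr (Or.inr hw)
      have hne : u ≠ w := by
        rintro rfl
        exact lt_irrefl _ hlt
      rcases lt_trichotomy (β u) (β w) with h | h | h
      · exact h
      · exact absurd h (I.ib u w pu pw hne)
      · exact absurd (key w u hw hu hRu h) (not_lt.2 hlt.le)

end Pool.Agent.SGE.H20
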